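import Pool.Agent.helper5.IH.Spec

/-! # Project ih (MP_45d809_mp), row SWP: an involution on pairs of permutations -/

set_option autoImplicit false

namespace Pool.Agent.IH
open Finset CT SYM

section
variable {V : Type} [Finite V] [DecidableEq V]

/-- the pairs counted by `PP` -/
private def SWP_Q (H : SimpleGraph V) (v x y : V) (p : Equiv.Perm V × Equiv.Perm V) : Prop :=
  p.1 v = v ∧ p.2 v = v ∧ Mt H p.1 ∧ Pt H x y p.2 ∧ ∀ w, w ≠ v → ¬ (p.1 w = w ↔ p.2 w = w)

open Classical in
/-- the exchange -/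
private noncomputable def SWP_F (y : V) (p : Equiv.Perm V × Equiv.Perm V) : Equiv.Perm V × Equiv.Perm V :=
  ((p.2.cycleOf y)⁻¹ * p.2, p.2.cycleOf y * p.1)

private lemma SWP_a {H : SimpleGraph V} {v x y : V} (hxy : x ≠ y) {p : Equiv.Perm V × Equiv.Perm V}
    (hp : SWP_Q H v x y p) (w : V) (hw : p.2.SameCycle y w) : p.2 w ≠ w := by
  intro h
  have h1 := hw.apply_eq_self_iff.2 h
  rw [hp.2.2.2.1.1] at h1
  exact hxy h1

private lemma SWP_b {H : SimpleGraph V} {v x y : V} (hxy : x ≠ y) {p : Equiv.Perm V × Equiv.Perm V}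
    (hp : SWP_Q H v x y p) (w : V) (hw : p.2.SameCycle y w) : p.1 w = w := by
  have h1 := SWP_a hxy hp w hw
  have hwv : w ≠ v := by
    rintro rfl
    exact h1 hp.2.1
  by_contra h
  exact hp.2.2.2.2 w hwv ⟨fun h' => absurd h' h, fun h' => absurd h' h1⟩

open Classical in
private lemma SWP_d {y : V} (p : Equiv.Perm V × Equiv.Perm V) (w : V) :
    (SWP_F y p).1 w = if p.2.SameCycle y w then w else p.2 w := by
  unfold SWP_F
  rw [Equiv.Perm.mul_apply, Equiv.Perm.inv_eq_iff_eq, Equiv.Perm.cycleOf_apply]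
  by_cases h : p.2.SameCycle y w
  · rw [if_pos h, if_pos h]
  · rw [if_neg h]
    have h2 : ¬ p.2.SameCycle y (p.2 w) := by
      rw [Equiv.Perm.sameCycle_apply_right]
      exact h
    rw [if_neg h2]

open Classical in
private lemma SWP_e {H : SimpleGraph V} {v x y : V} (hxy : x ≠ y) {p : Equiv.Perm V × Equiv.Perm V}
    (hp : SWP_Q H v x y p) (w : V) :
    (SWP_F y p).2 w = if p.2.SameCycle y w then p.2 w else p.1 w := by
  unfold SWP_F
  rw [Equiv.Perm.mul_apply, Equiv.Perm.cycleOf_apply]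
  by_cases h : p.2.SameCycle y w
  · rw [SWP_b hxy hp w h, if_pos h]
  · have h2 : ¬ p.2.SameCycle y (p.1 w) := by
      intro h3
      have h4 := SWP_b hxy hp _ h3
      rw [hp.2.2.1.1 w] at h4
      rw [← h4] at h3
      exact h h3
    rw [if_neg h2, if_neg h]

private lemma SWP_f {H : SimpleGraph V} {v x y : V} (hxy : x ≠ y) {p : Equiv.Perm V × Equiv.Perm V}
    (hp : SWP_Q H v x y p) (w : V) : (SWP_F y p).2.SameCycle y w ↔ p.2.SameCycle y w := by
  have h1 : ∀ n : ℕ, ((SWP_F y p).2 ^ n) y = (p.2 ^ n) y := by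
    intro n
    induction n with
    | zero => simp
    | succ n ih =>
      rw [pow_succ', Equiv.Perm.mul_apply, ih, pow_succ', Equiv.Perm.mul_apply, SWP_e hxy hp, if_pos]
      exact ⟨n, by simp⟩
  constructor
  · intro h
    obtain ⟨n, hn⟩ := h.exists_nat_pow_eq
    rw [h1] at hn
    exact ⟨n, by simpa using hn⟩
  · intro h
    obtain ⟨n, hn⟩ := h.exists_nat_pow_eq
    rw [← h1] at hn
    exact ⟨n, by simpa using hn⟩

private lemma SWP_mem {H : SimpleGraph V} {v x y : V} (hxy : x ≠ y) (hyv : y ≠ v)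
    {p : Equiv.Perm V × Equiv.Perm V} (hp : SWP_Q H v x y p) : SWP_Q H v x y (SWP_F y p) := by
  have hv : ¬ p.2.SameCycle y v := by
    intro h
    exact SWP_a hxy hp v h hp.2.1
  refine ⟨?_, ?_, ⟨?_, ?_⟩, ⟨?_, ?_, ?_⟩, ?_⟩
  · rw [SWP_d, if_neg hv]
    exact hp.2.1
  · rw [SWP_e hxy hp, if_neg hv]
    exact hp.1
  · intro w
    rw [SWP_d p w]
    by_cases h : p.2.SameCycle y w
    · rw [if_pos h, SWP_d, if_pos h]
    · rw [if_neg h, SWP_d, if_neg (by rw [Equiv.Perm.sameCycle_apply_right]; exact h)]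
      exact hp.2.2.2.1.2.2 w h
  · intro w hw
    rw [SWP_d] at hw ⊢
    by_cases h : p.2.SameCycle y w
    · rw [if_pos h] at hw
      exact absurd rfl hw
    · rw [if_neg h] at hw ⊢
      refine hp.2.2.2.1.2.1 w ?_ hw
      rintro rfl
      exact h (Equiv.Perm.SameCycle.refl _ _)
  · rw [SWP_e hxy hp, if_pos (Equiv.Perm.SameCycle.refl _ _)]
    exact hp.2.2.2.1.1
  · intro w hwy hw
    rw [SWP_e hxy hp] at hw ⊢
    by_cases h : p.2.SameCycle y w
    · rw [if_pos h] at hw ⊢
      exact hp.2.2.2.1.2.1 w hwy hw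
    · rw [if_neg h] at hw ⊢
      exact hp.2.2.1.2 w hw
  · intro w hw
    rw [SWP_f hxy hp] at hw
    have h2 : ¬ p.2.SameCycle y (p.1 w) := by
      intro h3
      have h4 := SWP_b hxy hp _ h3
      rw [hp.2.2.1.1 w] at h4
      rw [← h4] at h3
      exact hw h3
    rw [SWP_e hxy hp w, if_neg hw, SWP_e hxy hp, if_neg h2]
    exact hp.2.2.1.1 w
  · intro w hwv
    rw [SWP_d, SWP_e hxy hp]
    by_cases h : p.2.SameCycle y w
    · rw [if_pos h, if_pos h]
      intro h3
      exact SWP_a hxy hp w h (h3.1 rfl)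
    · rw [if_neg h, if_neg h]
      intro h3
      exact hp.2.2.2.2 w hwv h3.symm

private lemma SWP_inv {H : SimpleGraph V} {v x y : V} (hxy : x ≠ y) (hyv : y ≠ v)
    {p : Equiv.Perm V × Equiv.Perm V} (hp : SWP_Q H v x y p) : SWP_F y (SWP_F y p) = p := by
  have hq := SWP_mem hxy hyv hp
  apply Prod.ext
  · ext w
    rw [SWP_d]
    by_cases h : p.2.SameCycle y w
    · rw [if_pos ((SWP_f hxy hp w).2 h)]
      exact (SWP_b hxy hp w h).symm
    · rw [if_neg (fun h' => h ((SWP_f hxy hp w).1 h')), SWP_e hxy hp, if_neg h]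
  · ext w
    rw [SWP_e hxy hq]
    by_cases h : p.2.SameCycle y w
    · rw [if_pos ((SWP_f hxy hp w).2 h), SWP_e hxy hp, if_pos h]
    · rw [if_neg (fun h' => h ((SWP_f hxy hp w).1 h')), SWP_d, if_neg h]

/-- the fixed pairs -/
private lemma SWP_fix {H : SimpleGraph V} {v x y : V} (hxy : x ≠ y)
    {p : Equiv.Perm V × Equiv.Perm V} (hp : SWP_Q H v x y p) :
    SWP_F y p = p ↔ p.1 = 1 ∧ ∀ w, w ≠ v → p.2.SameCycle y w := by
  constructor
  · intro h
    have h1 : ∀ w, w ≠ v → p.2.SameCycle y w := by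
      intro w hwv
      by_contra hc
      have h2 : p.2 w = p.1 w := by
        have := SWP_e hxy hp w
        rw [h, if_neg hc] at this
        exact this
      exact hp.2.2.2.2 w hwv (by rw [h2])
    refine ⟨?_, h1⟩
    ext w
    by_cases hwv : w = v
    · rw [hwv]
      exact hp.1
    · exact SWP_b hxy hp w (h1 w hwv)
  · rintro ⟨h1, h2⟩
    have hv : ¬ p.2.SameCycle y v := fun h => SWP_a hxy hp v h hp.2.1
    apply Prod.ext
    · ext w
      rw [SWP_d]
      by_cases hwv : w = v
      · subst hwv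
        rw [if_neg hv, hp.2.1, hp.1]
      · rw [if_pos (h2 w hwv), h1]
        rfl
    · ext w
      rw [SWP_e hxy hp]
      by_cases hwv : w = v
      · subst hwv
        rw [if_neg hv, hp.2.1, hp.1]
      · rw [if_pos (h2 w hwv)]

end

theorem SWP : SWP_stmt := by
  classical
  intro V _ _ H v x y hxy hxv hyv
  have := Fintype.ofFinite V
  have h1 : PP H v x y = #{p : Equiv.Perm V × Equiv.Perm V | SWP_Q H v x y p} := by
    unfold PP
    rw [Nat.card_eq_fintype_card, Fintype.card_subtype]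
    apply congrArg
    ext p
    simp only [Finset.mem_filter, Finset.mem_univ, true_and]
    rfl
  have h2 : Hp H v x y = #{p : Equiv.Perm V × Equiv.Perm V | SWP_Q H v x y p ∧ SWP_F y p = p} := by
    unfold Hp
    rw [Nat.card_eq_fintype_card, Fintype.card_subtype]
    refine Finset.card_bij (fun σ _ => ((1 : Equiv.Perm V), σ)) ?_ ?_ ?_
    · intro σ hσ
      rw [Finset.mem_filter] at hσ
      obtain ⟨-, a1, a2, a3, a4⟩ := hσ
      have hq : SWP_Q H v x y ((1 : Equiv.Perm V), σ) := by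
        refine ⟨rfl, a1, ⟨fun w => rfl, fun w hw => absurd rfl hw⟩, ⟨a2, ?_, ?_⟩, ?_⟩
        · intro w hwy hw
          refine a3 w ?_ hwy
          rintro rfl
          exact hw a1
        · intro w hw
          have hwv : w = v := by
            by_contra h
            exact hw (a4 w h)
          rw [hwv]
          simp only [a1]
        · intro w hwv hiff
          have h3 : σ w = w := hiff.1 rfl
          have h4 := (a4 w hwv).apply_eq_self_iff.2 h3
          rw [a2] at h4
          exact hxy h4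
      rw [Finset.mem_filter]
      exact ⟨Finset.mem_univ _, hq, (SWP_fix hxy hq).2 ⟨rfl, a4⟩⟩
    · intro σ _ σ' _ h
      exact (Prod.ext_iff.1 h).2
    · intro p hp
      rw [Finset.mem_filter] at hp
      obtain ⟨-, hq, hf⟩ := hp
      obtain ⟨b1, b2⟩ := (SWP_fix hxy hq).1 hf
      refine ⟨p.2, ?_, ?_⟩
      · rw [Finset.mem_filter]
        refine ⟨Finset.mem_univ _, hq.2.1, hq.2.2.2.1.1, ?_, b2⟩
        intro w hwv hwy
        exact hq.2.2.2.1.2.1 w hwy (SWP_a hxy hq w (b2 w hwv))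
      · exact Prod.ext b1.symm rfl
  rw [h1, h2]
  have h3 : #{p : Equiv.Perm V × Equiv.Perm V | SWP_Q H v x y p} =
      #{p : Equiv.Perm V × Equiv.Perm V | SWP_Q H v x y p ∧ SWP_F y p = p} +
      #{p : Equiv.Perm V × Equiv.Perm V | SWP_Q H v x y p ∧ SWP_F y p ≠ p} := by
    rw [← Finset.card_union_of_disjoint]
    · congr 1
      ext p
      simp only [Finset.mem_filter, Finset.mem_univ, true_and, Finset.mem_union]
      tauto
    · rw [Finset.disjoint_left]
      intro p h h'
      rw [Finset.mem_filter] at h h'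
      exact h'.2.2 h.2.2
  have h4 : ((#{p : Equiv.Perm V × Equiv.Perm V | SWP_Q H v x y p ∧ SWP_F y p ≠ p} : ℕ) : ZMod 2) = 0 := by
    have h5 : ∑ p : Equiv.Perm V × Equiv.Perm V with SWP_Q H v x y p ∧ SWP_F y p ≠ p, (1 : ZMod 2) = 0 := by
      refine Finset.sum_involution (fun p _ => SWP_F y p) ?_ ?_ ?_ ?_
      · intro p _
        decide
      · intro p hp _
        rw [Finset.mem_filter] at hp
        exact hp.2.2
      · intro p hp
        rw [Finset.mem_filter] at hp ⊢
        refine ⟨Finset.mem_univ _, SWP_mem hxy hyv hp.2.1, ?_⟩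
        intro h6
        rw [SWP_inv hxy hyv hp.2.1] at h6
        exact hp.2.2 h6.symm
      · intro p hp
        rw [Finset.mem_filter] at hp
        exact SWP_inv hxy hyv hp.2.1
    rw [Finset.sum_const, nsmul_eq_mul, mul_one] at h5
    exact h5
  rw [h3, Nat.cast_add, h4, add_zero]

end Pool.Agent.IH
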